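import Mathlib
import Pool.Agent.Y734.I.StmsH
import Pool.Agent.Y734.I.Mult
import Pool.Agent.Y734.I.UE.Ue

/-!
Job TOR (helper734, project Y734/I), by helper515: torus closure of sequences of units.
-/

set_option autoImplicit false

namespace Pool.Agent.Y734.I.TOR

open Pool.Agent.Y734.I Filter MvPolynomial Pool.Agent.Y660.QP

/-- a linear form which is injective on a finite set -/
theorem exists_form {T : ℕ} (X : Set (Fin T → ℚ)) (hX : X.Finite) :
    ∃ l : Fin T → ℚ, ∀ x ∈ X, ∀ y ∈ X, (∑ j, l j * x j = ∑ j, l j * y j) → x = y := by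
  classical
  let P : (Fin T → ℚ) → Polynomial ℚ := fun x => ∑ j : Fin T, Polynomial.monomial (j : ℕ) (x j)
  have hP : ∀ x, x ≠ 0 → P x ≠ 0 := by
    intro x hx h0
    apply hx
    funext j
    have h1 : (P x).coeff (j : ℕ) = x j := by
      simp only [P, Polynomial.finsetSum_coeff, Polynomial.coeff_monomial]
      rw [Finset.sum_eq_single j]
      · simp
      · intro b _ hb
        rw [if_neg]
        intro h
        exact hb (Fin.ext h)
      · intro h
        exact absurd (Finset.mem_univ _) h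
    rw [← h1, h0, Polynomial.coeff_zero, Pi.zero_apply]
  let F : Finset ((Fin T → ℚ) × (Fin T → ℚ)) :=
    (hX.toFinset ×ˢ hX.toFinset).filter fun z => z.1 ≠ z.2
  have hQ : ∏ z ∈ F, P (z.1 - z.2) ≠ 0 := by
    rw [Finset.prod_ne_zero_iff]
    intro z hz
    exact hP _ (sub_ne_zero.2 (Finset.mem_filter.1 hz).2)
  obtain ⟨s, hs⟩ : ∃ s : ℚ, Polynomial.eval s (∏ z ∈ F, P (z.1 - z.2)) ≠ 0 := by
    by_contra hcon
    push Not at hcon
    exact hQ (Polynomial.funext fun r => by rw [hcon, Polynomial.eval_zero])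
  refine ⟨fun j => s ^ (j : ℕ), fun x hx y hy hxy => ?_⟩
  by_contra hne
  apply hs
  rw [Polynomial.eval_prod, Finset.prod_eq_zero_iff]
  refine ⟨(x, y), Finset.mem_filter.2 ⟨Finset.mem_product.2 ⟨hX.mem_toFinset.2 hx,
    hX.mem_toFinset.2 hy⟩, hne⟩, ?_⟩
  simp only [P, Polynomial.eval_finsetSum, Polynomial.eval_monomial, Pi.sub_apply]
  rw [← sub_eq_zero, ← Finset.sum_sub_distrib] at hxy
  rw [← hxy]
  refine Finset.sum_congr rfl fun j _ => by ring

/-- a common denominator -/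
theorem exists_den {m : ℕ} (b : Fin m → ℚ) :
    ∃ (N : ℕ) (α : Fin m → ℤ), N ≠ 0 ∧ ∀ i, (α i : ℚ) = N * b i := by
  refine ⟨∏ j, (b j).den, fun i => (b i).num * ((∏ j, (b j).den) / (b i).den : ℕ), ?_, ?_⟩
  · rw [Finset.prod_ne_zero_iff]
    intro j _
    exact (b j).den_nz
  · intro i
    obtain ⟨k, hk⟩ : (b i).den ∣ ∏ j, (b j).den := Finset.dvd_prod_of_mem _ (Finset.mem_univ i)
    have h1 : (∏ j, (b j).den) / (b i).den = k := by
      rw [hk, Nat.mul_div_cancel_left _ (b i).den_pos]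
    beta_reduce
    rw [h1, hk]
    push_cast
    have h2 : ((b i).num : ℚ) = b i * (b i).den := (Rat.mul_den_eq_num (b i)).symm
    rw [h2]
    ring

/-- powers with a sum as exponent -/
theorem zpow_sum' {z : ℚ} (hz : z ≠ 0) {ι : Type} (s : Finset ι) (e : ι → ℤ) :
    z ^ (∑ i ∈ s, e i) = ∏ i ∈ s, z ^ e i := by
  classical
  induction s using Finset.induction_on with
  | empty => simp
  | insert b s hb ih => rw [Finset.sum_insert hb, Finset.prod_insert hb, zpow_add₀ hz, ih]

section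

variable {U : Ultrafilter ℕ} {Ω : Type} [Field Ω] [Algebra ℚ Ω] (g : Gm U Ω) {m : ℕ}

/-- monomials are proportional if and only if the quotient is a constant germ -/
theorem prop_iff (f : Fin m → ℕ → ℚ) (hf : ∀ i t, f i t ≠ 0) {T : ℕ} (a : Fin m → Fin T → ℚ)
    (ha : ∀ e : Fin m → ℤ, ∑ i, (e i : ℚ) • a i = 0 ↔
      ∃ c : ℚ, ∏ i, (g.π (fun t => ((f i t : ℚ) : ℂ))) ^ e i = algebraMap ℚ Ω c)
    (μ μ' : Fin m → ℕ) :
    ∑ i, (μ i : ℚ) • a i = ∑ i, (μ' i : ℚ) • a i ↔
      ∃ c : ℚ, ∀ᶠ t in (U : Filter ℕ), ∏ i, f i t ^ μ' i = c * ∏ i, f i t ^ μ i := by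
  have h1 : ∑ i, (μ i : ℚ) • a i = ∑ i, (μ' i : ℚ) • a i ↔
      ∑ i, ((((μ' i : ℤ) - μ i : ℤ)) : ℚ) • a i = 0 := by
    have : ∑ i, ((((μ' i : ℤ) - μ i : ℤ)) : ℚ) • a i =
        ∑ i, (μ' i : ℚ) • a i - ∑ i, (μ i : ℚ) • a i := by
      rw [← Finset.sum_sub_distrib]
      refine Finset.sum_congr rfl fun i _ => ?_
      rw [← sub_smul]
      push_cast
      rfl
    rw [this, sub_eq_zero]
    exact eq_comm
  rw [h1, ha]
  refine exists_congr fun c => ?_
  rw [gm_prod g (fun t i => f i t) (fun t i => hf i t), ← g.rat, g.eq_iff]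
  refine eventually_congr (Eventually.of_forall fun t => ?_)
  rw [Rat.cast_inj]
  have h2 : ∏ i, f i t ^ ((μ' i : ℤ) - μ i) = (∏ i, f i t ^ μ' i) / ∏ i, f i t ^ μ i := by
    rw [← Finset.prod_div_distrib]
    refine Finset.prod_congr rfl fun i _ => ?_
    rw [zpow_sub₀ (hf i t), zpow_natCast, zpow_natCast]
  rw [h2, div_eq_iff]
  exact Finset.prod_ne_zero_iff.2 fun i _ => pow_ne_zero _ (hf i t)

end

theorem tor : TorStmt := by
  classical
  intro U S hS m f hf hv D
  obtain ⟨Ω, i3, i4, ⟨g⟩⟩ := ex_gm U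
  obtain ⟨T, a, -, -, -, ha⟩ := mult_data g (fun t i => f i t) (fun t i => hf i t)
  have hprop := prop_iff g f hf a ha
  obtain ⟨D', hD'⟩ : ∃ D', D' = max D 1 := ⟨_, rfl⟩
  let X : Set (Fin T → ℚ) :=
    Set.range fun k : Fin m → Fin (D' + 1) => ∑ i, (((k i : ℕ)) : ℚ) • a i
  obtain ⟨l, hl⟩ := exists_form X (Set.finite_range _)
  obtain ⟨N, α, hN, hα⟩ := exists_den fun i => ∑ j, l j * a i j
  have hX : ∀ μ : Fin m → ℕ, (∀ i, μ i ≤ D') → ∑ i, (μ i : ℚ) • a i ∈ X := by
    intro μ hμ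
    exact ⟨fun i => ⟨μ i, Nat.lt_succ_of_le (hμ i)⟩, rfl⟩
  -- the weights
  have hw : ∀ μ : Fin m → ℕ, ((∑ i, (μ i : ℤ) * α i : ℤ) : ℚ) =
      N * ∑ j, l j * (∑ i, (μ i : ℚ) • a i) j := by
    intro μ
    push_cast
    simp only [hα, Finset.sum_apply, Pi.smul_apply, smul_eq_mul, Finset.mul_sum]
    rw [Finset.sum_comm]
    refine Finset.sum_congr rfl fun j _ => Finset.sum_congr rfl fun i _ => by ring
  have hkey : ∀ μ μ' : Fin m → ℕ, (∀ i, μ i ≤ D') → (∀ i, μ' i ≤ D') →
      (∑ i, (μ i : ℤ) * α i = ∑ i, (μ' i : ℤ) * α i ↔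
        ∃ c : ℚ, ∀ᶠ t in (U : Filter ℕ), ∏ i, f i t ^ μ' i = c * ∏ i, f i t ^ μ i) := by
    intro μ μ' hμ hμ'
    rw [← hprop]
    constructor
    · intro h
      refine hl _ (hX μ hμ) _ (hX μ' hμ') ?_
      have h1 := congrArg (fun z : ℤ => (z : ℚ)) h
      simp only [hw] at h1
      exact mul_left_cancel₀ (by exact_mod_cast hN) h1
    · intro h
      have h1 : ((∑ i, (μ i : ℤ) * α i : ℤ) : ℚ) = ((∑ i, (μ' i : ℤ) * α i : ℤ) : ℚ) := by
        rw [hw, hw, h]
      exact_mod_cast h1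
  refine ⟨α, ?_, ?_⟩
  · intro i j
    have h1 := hkey (Pi.single i 1) (Pi.single j 1) (fun k => by
        by_cases hk : k = i
        · subst hk; simp [hD']
        · simp [hk]) (fun k => by
        by_cases hk : k = j
        · subst hk; simp [hD']
        · simp [hk])
    have e1 : ∀ i : Fin m, ∑ k, ((Pi.single i 1 : Fin m → ℕ) k : ℤ) * α k = α i := by
      intro i
      rw [Finset.sum_eq_single i]
      · simp
      · intro b _ hb
        simp [hb]
      · intro h
        exact absurd (Finset.mem_univ _) h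
    have e2 : ∀ (i : Fin m) (t : ℕ), ∏ k, f k t ^ (Pi.single i 1 : Fin m → ℕ) k = f i t := by
      intro i t
      rw [Finset.prod_eq_single i]
      · simp
      · intro b _ hb
        simp [hb]
      · intro h
        exact absurd (Finset.mem_univ _) h
    rw [e1, e1] at h1
    rw [h1]
    simp only [e2]
  · intro d F hd hF hev
    -- enumerate the support
    let n := F.support.card
    let ε : Fin n ≃ F.support := F.support.equivFin.symm
    have hdeg : ∀ μ ∈ F.support, ∑ i, μ i = d := by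
      intro μ hμ
      have h1 := hF (mem_support_iff.1 hμ)
      rw [← h1, Finsupp.weight_apply, Finsupp.sum_fintype]
      · simp
      · intro i
        simp
    have hle : ∀ μ ∈ F.support, ∀ i, μ i ≤ D' := by
      intro μ hμ i
      calc μ i ≤ ∑ i, μ i := Finset.single_le_sum (f := fun i => μ i) (fun _ _ => Nat.zero_le _)
            (Finset.mem_univ i)
      _ = d := hdeg μ hμ
      _ ≤ D := hd
      _ ≤ D' := by rw [hD']; exact le_max_left _ _
    let x : Fin n → ℕ → ℚ := fun j t => ∏ i, f i t ^ (ε j : Fin m →₀ ℕ) i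
    have hx0 : ∀ j t, x j t ≠ 0 := fun j t =>
      Finset.prod_ne_zero_iff.2 fun i _ => pow_ne_zero _ (hf i t)
    have hval : ∀ (t p : ℕ), p.Prime → p ∉ S → ∀ j i0, padicValRat p (x j t) =
        d * padicValRat p (f i0 t) := by
      intro t p hp hpS j i0
      have : Fact p.Prime := ⟨hp⟩
      have h1 : ∀ s : Finset (Fin m), padicValRat p (∏ i ∈ s, f i t ^ (ε j : Fin m →₀ ℕ) i) =
          ∑ i ∈ s, ((ε j : Fin m →₀ ℕ) i : ℤ) * padicValRat p (f i t) := by
        intro s
        induction s using Finset.induction_on with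
        | empty => simp
        | insert b s hb ih =>
          rw [Finset.prod_insert hb, Finset.sum_insert hb, padicValRat.mul
            (pow_ne_zero _ (hf b t)) (Finset.prod_ne_zero_iff.2 fun i _ => pow_ne_zero _ (hf i t)),
            ih, padicValRat.pow]
      change padicValRat p (∏ i, f i t ^ (ε j : Fin m →₀ ℕ) i) = _
      rw [h1]
      have h2 : ∀ i ∈ Finset.univ, ((ε j : Fin m →₀ ℕ) i : ℤ) * padicValRat p (f i t) =
          ((ε j : Fin m →₀ ℕ) i : ℤ) * padicValRat p (f i0 t) := fun i _ => by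
        rw [hv i i0 t p hp hpS]
      rw [Finset.sum_congr rfl h2, ← Finset.sum_mul]
      congr 1
      exact_mod_cast hdeg _ (ε j).2
    have hval2 : ∀ i j t (p : ℕ), p.Prime → p ∉ S →
        padicValRat p (x i t) = padicValRat p (x j t) := by
      intro i j t p hp hpS
      rcases Nat.eq_zero_or_pos m with rfl | hm
      · simp [x]
      · rw [hval t p hp hpS i ⟨0, hm⟩, hval t p hp hpS j ⟨0, hm⟩]
    have hsum : ∀ᶠ t in (U : Filter ℕ), ∑ j, coeff (ε j : Fin m →₀ ℕ) F * x j t = 0 := by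
      filter_upwards [hev] with t ht
      rw [eval_eq', ← Finset.sum_coe_sort] at ht
      rw [← ht]
      exact Equiv.sum_comp ε fun μ : F.support => coeff (μ : Fin m →₀ ℕ) F *
        ∏ i, f i t ^ (μ : Fin m →₀ ℕ) i
    let wt : Fin n → ℤ := fun j => ∑ i, ((ε j : Fin m →₀ ℕ) i : ℤ) * α i
    have hcl : ∀ i : Fin n, ∀ᶠ t in (U : Filter ℕ),
        ∑ j ∈ Finset.univ.filter (fun j => wt j = wt i), coeff (ε j : Fin m →₀ ℕ) F * x j t = 0 := by
      intro i
      refine Pool.Agent.Y734.I.UE.ue U S hS n x hx0 hval2 _ hsum i _ fun j => ?_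
      rw [Finset.mem_filter]
      have h1 := hkey (fun k => (ε i : Fin m →₀ ℕ) k) (fun k => (ε j : Fin m →₀ ℕ) k)
        (hle _ (ε i).2) (hle _ (ε j).2)
      rw [← h1]
      constructor
      · intro h
        exact h.2.symm
      · intro h
        exact ⟨Finset.mem_univ _, h.symm⟩
    have hall : ∀ᶠ t in (U : Filter ℕ), ∀ i : Fin n,
        ∑ j ∈ Finset.univ.filter (fun j => wt j = wt i), coeff (ε j : Fin m →₀ ℕ) F * x j t = 0 :=
      eventually_all.2 hcl
    filter_upwards [hall] with t ht z hz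
    have e1 : eval (fun i => f i t * z ^ α i) F =
        ∑ j, coeff (ε j : Fin m →₀ ℕ) F * x j t * z ^ wt j := by
      rw [eval_eq', ← Finset.sum_coe_sort, ← Equiv.sum_comp ε]
      refine Finset.sum_congr rfl fun j _ => ?_
      rw [mul_assoc]
      congr 1
      change _ = (∏ i, f i t ^ (ε j : Fin m →₀ ℕ) i) * z ^ wt j
      have h2 : z ^ wt j = ∏ i, (z ^ α i) ^ (ε j : Fin m →₀ ℕ) i := by
        change z ^ (∑ i, ((ε j : Fin m →₀ ℕ) i : ℤ) * α i) = _
        rw [zpow_sum' hz]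
        refine Finset.prod_congr rfl fun i _ => ?_
        rw [mul_comm, zpow_mul, zpow_natCast]
      rw [h2, ← Finset.prod_mul_distrib]
      refine Finset.prod_congr rfl fun i _ => ?_
      rw [mul_pow]
    rw [e1]
    rw [← Finset.sum_fiberwise_of_maps_to (s := Finset.univ) (t := Finset.univ.image wt) (g := wt)
      (fun j _ => Finset.mem_image_of_mem _ (Finset.mem_univ j))]
    refine Finset.sum_eq_zero fun w hwm => ?_
    obtain ⟨i, -, rfl⟩ := Finset.mem_image.1 hwm
    have h3 : ∀ j ∈ Finset.univ.filter (fun j => wt j = wt i),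
        coeff (ε j : Fin m →₀ ℕ) F * x j t * z ^ wt j =
          coeff (ε j : Fin m →₀ ℕ) F * x j t * z ^ wt i := by
      intro j hj
      rw [(Finset.mem_filter.1 hj).2]
    rw [Finset.sum_congr rfl h3, ← Finset.sum_mul, ht i, zero_mul]

end Pool.Agent.Y734.I.TOR
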